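import Pool.Agent.U317.OM.B

/-!
# Multiplication in `C(X, ℂ)` is uniformly open when `dim X ≤ 1`

For a compact Hausdorff space `X` of Lebesgue covering dimension at most one, multiplication in
the complex Banach algebra `C(X)` is open and uniformly open; in fact the product of the open
`ε`-balls about any two functions `a`, `b` contains the open ball of radius `ε² / 200` about `a b`.
-/

open Set Topology Pointwise

namespace Pool.Agent.Results.MP_64150f_an.UniformlyOpenDimOne

open Pool.Agent.U317.OM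

/-- Multiplication in the normed ring `A` is open: it is an open map `A × A → A`. -/
def MulOpen (A : Type*) [NormedRing A] : Prop :=
  IsOpenMap (fun p : A × A => p.1 * p.2)

/-- Multiplication in the normed ring `A` is uniformly open: for every `ε > 0` there is `δ > 0`
such that `B(ab, δ) ⊆ B(a, ε) · B(b, ε)` for all `a, b` in the closed unit ball. -/
def MulUniformlyOpen (A : Type*) [NormedRing A] : Prop :=
  ∀ ε > 0, ∃ δ > 0, ∀ a b : A, ‖a‖ ≤ 1 → ‖b‖ ≤ 1 →
    Metric.ball (a * b) δ ⊆ Metric.ball a ε * Metric.ball b ε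

/-- the quantitative form -/
theorem quantitative {X : Type*} [TopologicalSpace X] [CompactSpace X] [T2Space X]
    (hX : CoverDimLE X 1) {ε : ℝ} (hε : 0 < ε) (a b : C(X, ℂ)) :
    Metric.ball (a * b) (ε ^ 2 / 200) ⊆ Metric.ball a ε * Metric.ball b ε := by
  intro h hh
  rw [Metric.mem_ball, dist_eq_norm] at hh
  set d : ℝ := ε / 10 with hd
  have hd0 : 0 < d := by positivity
  -- small perturbation parameter
  set M : ℝ := ‖a‖ + ‖b‖ + 1 with hM
  have hM0 : 0 < M := by positivity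
  set r : ℝ := min (min 1 d) (ε ^ 2 / (200 * M)) with hr
  have hr0 : 0 < r := by
    rw [hr]; positivity
  have hr1 : r ≤ 1 := (min_le_left _ _).trans (min_le_left _ _)
  have hrd : r ≤ d := (min_le_left _ _).trans (min_le_right _ _)
  have hrM : r * M ≤ ε ^ 2 / 200 := by
    have : r ≤ ε ^ 2 / (200 * M) := min_le_right _ _
    calc r * M ≤ ε ^ 2 / (200 * M) * M := mul_le_mul_of_nonneg_right this hM0.le
      _ = ε ^ 2 / 200 := by field_simp
  obtain ⟨f, hf0, hf⟩ := exists_nonvanishing hX a hr0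
  obtain ⟨g, hg0, hg⟩ := exists_nonvanishing hX b hr0
  have hfn : ∀ x, (‖f x‖ : ℝ) ≠ 0 := fun x => norm_ne_zero_iff.mpr (hf0 x)
  have hgn : ∀ x, (‖g x‖ : ℝ) ≠ 0 := fun x => norm_ne_zero_iff.mpr (hg0 x)
  have hfc : ∀ x, ((‖f x‖ : ℝ) : ℂ) ≠ 0 := fun x => by exact_mod_cast hfn x
  have hgc : ∀ x, ((‖g x‖ : ℝ) : ℂ) ≠ 0 := fun x => by exact_mod_cast hgn x
  set F : C(X, ℝ) := ⟨fun x => ‖f x‖, by fun_prop⟩ with hF
  set G : C(X, ℝ) := ⟨fun x => ‖g x‖, by fun_prop⟩ with hG
  set φ : C(X, ℂ) := ⟨fun x => f x / ((‖f x‖ : ℝ) : ℂ),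
    Continuous.div f.continuous (by fun_prop) hfc⟩ with hφ
  set ψ : C(X, ℂ) := ⟨fun x => g x / ((‖g x‖ : ℝ) : ℂ),
    Continuous.div g.continuous (by fun_prop) hgc⟩ with hψ
  have hφ1 : ∀ x, ‖φ x‖ = 1 := by
    intro x
    simp only [hφ, ContinuousMap.coe_mk, norm_div, Complex.norm_real, norm_norm]
    exact div_self (hfn x)
  have hψ1 : ∀ x, ‖ψ x‖ = 1 := by
    intro x
    simp only [hψ, ContinuousMap.coe_mk, norm_div, Complex.norm_real, norm_norm]
    exact div_self (hgn x)
  have hfφ : ∀ x, f x = ((F x : ℝ) : ℂ) * φ x := by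
    intro x
    simp only [hφ, hF, ContinuousMap.coe_mk]
    rw [mul_div_cancel₀ _ (hfc x)]
  have hgψ : ∀ x, g x = ((G x : ℝ) : ℂ) * ψ x := by
    intro x
    simp only [hψ, hG, ContinuousMap.coe_mk]
    rw [mul_div_cancel₀ _ (hgc x)]
  have hφφ : ∀ x, (starRingEnd ℂ) (φ x) * φ x = 1 := by
    intro x
    rw [mul_comm, Complex.mul_conj, Complex.normSq_eq_norm_sq, hφ1]; simp
  have hψψ : ∀ x, (starRingEnd ℂ) (ψ x) * ψ x = 1 := by
    intro x
    rw [mul_comm, Complex.mul_conj, Complex.normSq_eq_norm_sq, hψ1]; simp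
  set H : C(X, ℂ) := ⟨fun x => h x * ((starRingEnd ℂ) (φ x) * (starRingEnd ℂ) (ψ x)), by
    have h1 : Continuous fun x => (starRingEnd ℂ) (φ x) :=
      Complex.continuous_conj.comp φ.continuous
    have h2 : Continuous fun x => (starRingEnd ℂ) (ψ x) :=
      Complex.continuous_conj.comp ψ.continuous
    fun_prop⟩ with hH
  -- `h` is close to `f g`
  have hclose : ∀ x, ‖h x - f x * g x‖ ≤ d ^ 2 := by
    intro x
    have h1 : ‖h x - a x * b x‖ ≤ ε ^ 2 / 200 := by
      have := (ContinuousMap.norm_coe_le_norm (h - a * b) x)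
      simp only [ContinuousMap.sub_apply, ContinuousMap.mul_apply] at this
      linarith
    have h2 : ‖a x * b x - f x * g x‖ ≤ r * M := by
      have h3 : a x * b x - f x * g x = -((f x - a x) * b x + a x * (g x - b x)
          + (f x - a x) * (g x - b x)) := by ring
      rw [h3, norm_neg]
      have ha := ContinuousMap.norm_coe_le_norm a x
      have hb := ContinuousMap.norm_coe_le_norm b x
      have hfx := (hf x).le
      have hgx := (hg x).le
      calc _ ≤ ‖(f x - a x) * b x + a x * (g x - b x)‖ + ‖(f x - a x) * (g x - b x)‖ :=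
            norm_add_le _ _
        _ ≤ ‖(f x - a x) * b x‖ + ‖a x * (g x - b x)‖ + ‖(f x - a x) * (g x - b x)‖ := by
            linarith [norm_add_le ((f x - a x) * b x) (a x * (g x - b x))]
        _ = ‖f x - a x‖ * ‖b x‖ + ‖a x‖ * ‖g x - b x‖ + ‖f x - a x‖ * ‖g x - b x‖ := by
            rw [norm_mul, norm_mul, norm_mul]
        _ ≤ r * ‖b‖ + ‖a‖ * r + r * 1 := by
            have e1 : ‖f x - a x‖ * ‖b x‖ ≤ r * ‖b‖ :=
              mul_le_mul hfx hb (norm_nonneg _) hr0.le
            have e2 : ‖a x‖ * ‖g x - b x‖ ≤ ‖a‖ * r :=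
              mul_le_mul ha hgx (norm_nonneg _) (norm_nonneg _)
            have e3 : ‖f x - a x‖ * ‖g x - b x‖ ≤ r * 1 :=
              mul_le_mul hfx (hgx.trans hr1) (norm_nonneg _) hr0.le
            linarith
        _ = r * M := by rw [hM]; ring
    calc ‖h x - f x * g x‖ = ‖(h x - a x * b x) + (a x * b x - f x * g x)‖ := by ring_nf
      _ ≤ _ := norm_add_le _ _
      _ ≤ ε ^ 2 / 200 + ε ^ 2 / 200 := by linarith
      _ = d ^ 2 := by rw [hd]; ring
  have hHclose : ∀ x, ‖H x - ((F x * G x : ℝ) : ℂ)‖ ≤ d ^ 2 := by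
    intro x
    have h1 : H x - ((F x * G x : ℝ) : ℂ)
        = (h x - f x * g x) * ((starRingEnd ℂ) (φ x) * (starRingEnd ℂ) (ψ x)) := by
      have h2 : H x = h x * ((starRingEnd ℂ) (φ x) * (starRingEnd ℂ) (ψ x)) := rfl
      rw [h2, hfφ x, hgψ x]
      push_cast
      linear_combination ((F x : ℂ) * (G x : ℂ) * ((starRingEnd ℂ) (ψ x) * ψ x)) * hφφ x
        + ((F x : ℂ) * (G x : ℂ)) * hψψ x
    rw [h1, norm_mul, norm_mul, RCLike.norm_conj, RCLike.norm_conj, hφ1, hψ1, mul_one, mul_one]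
    exact hclose x
  have hF0 : ∀ x, 0 ≤ F x := fun x => by
    change 0 ≤ ‖f x‖
    exact norm_nonneg _
  have hG0 : ∀ x, 0 ≤ G x := fun x => by
    change 0 ≤ ‖g x‖
    exact norm_nonneg _
  obtain ⟨U, V, hUV, hU, hV⟩ := core hX F G hF0 hG0 H hd0 hHclose
  rw [Set.mem_mul]
  refine ⟨U * φ, ?_, V * ψ, ?_, ?_⟩
  · rw [Metric.mem_ball, dist_eq_norm, ContinuousMap.norm_lt_iff _ hε]
    intro x
    have h1 : (U * φ - a) x = (U x - (F x : ℂ)) * φ x + (f x - a x) := by
      simp only [ContinuousMap.sub_apply, ContinuousMap.mul_apply]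
      rw [hfφ x]; ring
    rw [h1]
    calc _ ≤ ‖(U x - (F x : ℂ)) * φ x‖ + ‖f x - a x‖ := norm_add_le _ _
      _ = ‖U x - (F x : ℂ)‖ + ‖f x - a x‖ := by rw [norm_mul, hφ1, mul_one]
      _ < ε := by
          have := hU x
          have := hf x
          rw [hd] at *
          linarith
  · rw [Metric.mem_ball, dist_eq_norm, ContinuousMap.norm_lt_iff _ hε]
    intro x
    have h1 : (V * ψ - b) x = (V x - (G x : ℂ)) * ψ x + (g x - b x) := by
      simp only [ContinuousMap.sub_apply, ContinuousMap.mul_apply]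
      rw [hgψ x]; ring
    rw [h1]
    calc _ ≤ ‖(V x - (G x : ℂ)) * ψ x‖ + ‖g x - b x‖ := norm_add_le _ _
      _ = ‖V x - (G x : ℂ)‖ + ‖g x - b x‖ := by rw [norm_mul, hψ1, mul_one]
      _ < ε := by
          have := hV x
          have := hg x
          rw [hd] at *
          linarith
  · ext x
    simp only [ContinuousMap.mul_apply]
    have h2 : H x = h x * ((starRingEnd ℂ) (φ x) * (starRingEnd ℂ) (ψ x)) := rfl
    calc U x * φ x * (V x * ψ x) = (U x * V x) * (φ x * ψ x) := by ring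
      _ = h x * (((starRingEnd ℂ) (φ x) * φ x) * ((starRingEnd ℂ) (ψ x) * ψ x)) := by
          rw [hUV x, h2]; ring
      _ = h x := by rw [hφφ x, hψψ x]; ring

/-- **Multiplication in `C(X)` for `dim X ≤ 1`.** Let `X` be a compact Hausdorff space of Lebesgue
covering dimension at most one. Then multiplication in the complex Banach algebra `C(X)` is open
and uniformly open, and for all `a, b ∈ C(X)` and `ε > 0`,
`B(ab, ε²/200) ⊆ B(a, ε) · B(b, ε)`. -/
theorem result (X : Type*) [TopologicalSpace X] [CompactSpace X] [T2Space X]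
    (hX : CoverDimLE X 1) :
    MulOpen C(X, ℂ) ∧ MulUniformlyOpen C(X, ℂ) ∧
      ∀ (a b : C(X, ℂ)) (ε : ℝ), 0 < ε →
        Metric.ball (a * b) (ε ^ 2 / 200) ⊆ Metric.ball a ε * Metric.ball b ε := by
  refine ⟨?_, ?_, fun a b ε hε => quantitative hX hε a b⟩
  · intro W hW
    rw [Metric.isOpen_iff]
    rintro _ ⟨⟨a, b⟩, hab, rfl⟩
    obtain ⟨ε, hε, hball⟩ := Metric.isOpen_iff.mp hW (a, b) hab
    refine ⟨ε ^ 2 / 200, by positivity, ?_⟩
    intro h hh
    obtain ⟨u, hu, v, hv, huv⟩ := Set.mem_mul.mp (quantitative hX hε a b hh)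
    refine ⟨(u, v), hball ?_, huv⟩
    rw [← ball_prod_same]
    exact ⟨hu, hv⟩
  · intro ε hε
    exact ⟨ε ^ 2 / 200, by positivity, fun a b _ _ => quantitative hX hε a b⟩

end Pool.Agent.Results.MP_64150f_an.UniformlyOpenDimOne
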